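import Mathlib

/-!
For `n` identical dice, the probability that `n` divides the sum is at least `1 / 2 ^ (n - 1)`.

Prime `n`: sort the faces by their residue and pair the `j`-th with the `(j + h)`-th one (`2h`
faces); by Cauchy–Davenport, for every choice of `n` pairs at least two of the `2 ^ n` selections
have sum `0`.  Composite `n = ab`: group the dice into `b` groups of `a` dice.
-/

namespace Pool.Agent.Results.MP_652ce8_co.IdenticalDice

open Finset

open scoped Classical in
/-- The outcomes (`t i` is the bottom face of the `i`-th die) for which `n` divides the sum. -/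
noncomputable def good (n : ℕ) (F : Type*) [Fintype F] (f : F → ℤ) : Finset (Fin n → F) :=
  univ.filter fun t => (n : ℤ) ∣ ∑ i, f (t i)

/-- The bound in counting form. -/
def Bound.{u} (n : ℕ) : Prop :=
  ∀ (F : Type u) [Fintype F] (f : F → ℤ), Fintype.card F ^ n ≤ 2 ^ (n - 1) * #(good n F f)

section CauchyDavenport

open scoped Pointwise

variable {q : ℕ}

/-- The sums of all selections. -/
def sel (m : ℕ) (x y : Fin m → ZMod q) : Finset (ZMod q) :=
  univ.image fun c : Fin m → Bool => ∑ i, if c i then y i else x i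

theorem card_sel (hq : q.Prime) : ∀ (m : ℕ) (x y : Fin m → ZMod q), (∀ i, x i ≠ y i) →
    min q (m + 1) ≤ #(sel m x y) := by
  intro m
  induction m with
  | zero =>
    intro x y _
    have : 0 < #(sel 0 x y) := by
      apply Finset.card_pos.mpr
      exact ⟨_, Finset.mem_image_of_mem _ (Finset.mem_univ (fun i => false))⟩
    omega
  | succ m ih =>
    intro x y h
    have h1 := ih (fun i => x i.succ) (fun i => y i.succ) (fun i => h i.succ)
    have hne : (sel m (fun i => x i.succ) (fun i => y i.succ)).Nonempty := by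
      rw [← Finset.card_pos]; have := hq.two_le; omega
    have h2 := ZMod.cauchy_davenport hq (s := {x 0, y 0}) (by simp) hne
    rw [Finset.card_pair (h 0)] at h2
    have h3 : ({x 0, y 0} : Finset (ZMod q)) + sel m (fun i => x i.succ) (fun i => y i.succ) ⊆
        sel (m + 1) x y := by
      intro z hz
      rw [Finset.mem_add] at hz
      obtain ⟨u, hu, v, hv, rfl⟩ := hz
      unfold sel at hv
      rw [Finset.mem_image] at hv
      obtain ⟨c, -, rfl⟩ := hv
      unfold sel
      rw [Finset.mem_image]
      simp only [Finset.mem_insert, Finset.mem_singleton] at hu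
      rcases hu with rfl | rfl
      · refine ⟨Fin.cons false c, Finset.mem_univ _, ?_⟩
        simp [Fin.sum_univ_succ]
      · refine ⟨Fin.cons true c, Finset.mem_univ _, ?_⟩
        simp [Fin.sum_univ_succ]
    have h4 := Finset.card_le_card h3
    omega

end CauchyDavenport

theorem two_le_of_ne {m : ℕ} (hq : (m + 1).Prime) (x y : Fin (m + 1) → ZMod (m + 1))
    (h : ∀ i, x i ≠ y i) :
    2 ≤ #(univ.filter fun c : Fin (m + 1) → Bool => ∑ i, (if c i then y i else x i) = 0) := by
  have : Fact (m + 1).Prime := ⟨hq⟩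
  have h1 := card_sel hq m (fun i => x i.succ) (fun i => y i.succ) (fun i => h i.succ)
  have h2 : sel m (fun i => x i.succ) (fun i => y i.succ) = univ := by
    apply Finset.eq_univ_of_card
    apply le_antisymm (Finset.card_le_univ _)
    rw [ZMod.card]; simpa using h1
  have h3 : ∀ z : ZMod (m + 1), ∃ c : Fin m → Bool,
      ∑ i, (if c i then y i.succ else x i.succ) = z := by
    intro z
    have : z ∈ sel m (fun i => x i.succ) (fun i => y i.succ) := by rw [h2]; exact mem_univ _
    unfold sel at this
    rw [Finset.mem_image] at this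
    obtain ⟨c, -, hc⟩ := this
    exact ⟨c, hc⟩
  obtain ⟨c0, hc0⟩ := h3 (-x 0)
  obtain ⟨c1, hc1⟩ := h3 (-y 0)
  apply Finset.one_lt_card.mpr
  refine ⟨Fin.cons false c0, ?_, Fin.cons true c1, ?_, ?_⟩
  · simp [Fin.sum_univ_succ, hc0]
  · simp [Fin.sum_univ_succ, hc1]
  · intro he
    have := congrFun he 0
    simp at this

/-- At least two of the selections have sum `0`. -/
theorem two_le {q : ℕ} (hq : q.Prime) (x y : Fin q → ZMod q)
    (h : (∀ i, x i ≠ y i) ∨ ∃ a, ∀ i, x i = a ∨ y i = a) :
    2 ≤ #(univ.filter fun c : Fin q → Bool => ∑ i, (if c i then y i else x i) = 0) := by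
  by_cases hne : ∀ i, x i ≠ y i
  · obtain ⟨m, rfl⟩ : ∃ m, q = m + 1 := ⟨q - 1, by have := hq.two_le; omega⟩
    exact two_le_of_ne hq x y hne
  · obtain ⟨a, ha⟩ := h.resolve_left hne
    push Not at hne
    obtain ⟨i0, h0⟩ := hne
    have hx0 : x i0 = a := by
      rcases ha i0 with h | h
      · exact h
      · rw [h0]; exact h
    have hy0 : y i0 = a := h0 ▸ hx0
    set c0 : Fin q → Bool := fun i => decide (x i ≠ a) with hc0
    have e0 : ∀ i, (if c0 i then y i else x i) = a := by
      intro i
      by_cases hi : x i = a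
      · simp [hc0, hi]
      · simp [hc0, hi, (ha i).resolve_left hi]
    have e1 : ∀ i, (if Function.update c0 i0 (!c0 i0) i then y i else x i) = a := by
      intro i
      by_cases hi : i = i0
      · subst hi
        split_ifs
        · exact hy0
        · exact hx0
      · rw [Function.update_of_ne hi]
        exact e0 i
    apply Finset.one_lt_card.mpr
    refine ⟨c0, ?_, Function.update c0 i0 (!c0 i0), ?_, ?_⟩
    · simp only [mem_filter, mem_univ, true_and]
      rw [Finset.sum_congr rfl (fun i _ => e0 i)]
      simp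
    · simp only [mem_filter, mem_univ, true_and]
      rw [Finset.sum_congr rfl (fun i _ => e1 i)]
      simp
    · intro he
      have := congrFun he i0
      simp at this

/-- Sorting `2h` elements by a label and pairing the `j`-th with the `(j+h)`-th one. -/
theorem pairing {F : Type*} [Fintype F] {h : ℕ} (hF : Fintype.card F = h + h) (r : F → ℕ) :
    ∃ e : Bool × Fin h ≃ F, (∀ j, r (e (false, j)) ≠ r (e (true, j))) ∨
      ∃ a, ∀ j, r (e (false, j)) = a ∨ r (e (true, j)) = a := by
  let e0 : Fin (h + h) ≃ F := (Fintype.equivFinOfCardEq hF).symm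
  let s := Tuple.sort (r ∘ e0)
  have hmono : Monotone ((r ∘ e0) ∘ s) := Tuple.monotone_sort _
  refine ⟨((Equiv.boolProdEquivSum (Fin h)).trans finSumFinEquiv).trans (s.trans e0), ?_⟩
  have ef : ∀ j, (((Equiv.boolProdEquivSum (Fin h)).trans finSumFinEquiv).trans (s.trans e0))
      (false, j) = e0 (s (Fin.castAdd h j)) := by
    intro j; simp [Equiv.boolProdEquivSum]
  have et : ∀ j, (((Equiv.boolProdEquivSum (Fin h)).trans finSumFinEquiv).trans (s.trans e0))
      (true, j) = e0 (s (Fin.natAdd h j)) := by
    intro j; simp [Equiv.boolProdEquivSum]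
  simp only [ef, et]
  by_cases H : ∀ j : Fin h, r (e0 (s (Fin.castAdd h j))) ≠ r (e0 (s (Fin.natAdd h j)))
  · exact Or.inl H
  · right
    push Not at H
    obtain ⟨i, hi⟩ := H
    refine ⟨r (e0 (s (Fin.castAdd h i))), fun j => ?_⟩
    have hil := i.isLt
    have hjl := j.isLt
    by_cases hij : i ≤ j
    · left
      have h1 : r (e0 (s (Fin.castAdd h i))) ≤ r (e0 (s (Fin.castAdd h j))) :=
        hmono (show Fin.castAdd h i ≤ Fin.castAdd h j by
          rw [Fin.le_def] at hij ⊢; simpa using hij)
      have h2 : r (e0 (s (Fin.castAdd h j))) ≤ r (e0 (s (Fin.natAdd h i))) :=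
        hmono (show Fin.castAdd h j ≤ Fin.natAdd h i by rw [Fin.le_def]; simp; omega)
      omega
    · right
      have hji : (j : ℕ) < i := by rw [Fin.le_def] at hij; omega
      have h1 : r (e0 (s (Fin.castAdd h i))) ≤ r (e0 (s (Fin.natAdd h j))) :=
        hmono (show Fin.castAdd h i ≤ Fin.natAdd h j by rw [Fin.le_def]; simp; omega)
      have h2 : r (e0 (s (Fin.natAdd h j))) ≤ r (e0 (s (Fin.natAdd h i))) :=
        hmono (show Fin.natAdd h j ≤ Fin.natAdd h i by rw [Fin.le_def]; simp; omega)
      omega

/-- Prime `q`, an even number of faces. -/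
theorem prime_even {q : ℕ} (hq : q.Prime) {F : Type*} [Fintype F] (f : F → ℤ) {h : ℕ}
    (hF : Fintype.card F = h + h) : 2 * h ^ q ≤ #(good q F f) := by
  classical
  have : Fact q.Prime := ⟨hq⟩
  obtain ⟨e, he⟩ := pairing hF (fun u => ((f u : ℤ) : ZMod q).val)
  have key : ∀ j : Fin q → Fin h,
      2 ≤ #(univ.filter fun c : Fin q → Bool => (q : ℤ) ∣ ∑ i, f (e (c i, j i))) := by
    intro j
    have := two_le hq (fun i => ((f (e (false, j i)) : ℤ) : ZMod q))
      (fun i => ((f (e (true, j i)) : ℤ) : ZMod q)) (by
        rcases he with he | ⟨a, ha⟩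
        · left
          intro i hh
          exact he (j i) (by simp only [hh])
        · right
          refine ⟨(a : ZMod q), fun i => ?_⟩
          rcases ha (j i) with h | h
          · left; rw [← h]; simp
          · right; rw [← h]; simp)
    refine this.trans (Finset.card_le_card ?_)
    intro c hc
    simp only [mem_filter, mem_univ, true_and] at hc ⊢
    rw [← ZMod.intCast_zmod_eq_zero_iff_dvd, ← hc]
    push_cast
    apply Finset.sum_congr rfl
    intro i _
    cases c i <;> simp
  have hcard : #(good q F f) =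
      ∑ j : Fin q → Fin h, #(univ.filter fun c : Fin q → Bool =>
        (q : ℤ) ∣ ∑ i, f (e (c i, j i))) := by
    unfold good
    simp only [Finset.card_filter]
    rw [← Fintype.sum_prod_type_right
      (f := fun p : (Fin q → Bool) × (Fin q → Fin h) =>
        if (q : ℤ) ∣ ∑ i, f (e (p.1 i, p.2 i)) then 1 else 0)]
    apply Fintype.sum_equiv (((Equiv.refl (Fin q)).arrowCongr e.symm).trans
      (Equiv.arrowProdEquivProdArrow (Fin q) (fun _ => Bool) (fun _ => Fin h)))
    intro t
    simp [Equiv.arrowProdEquivProdArrow, Equiv.arrowCongr]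
  rw [hcard]
  calc 2 * h ^ q = ∑ j : Fin q → Fin h, 2 := by simp [mul_comm]
    _ ≤ _ := Finset.sum_le_sum fun j _ => key j

theorem bound_prime.{u} {q : ℕ} (hq : q.Prime) : Bound.{u} q := by
  classical
  intro F _ f
  have h1 := prime_even hq (F := F × Bool) (fun u => f u.1) (h := Fintype.card F) (by simp; ring)
  have h2 : #(good q (F × Bool) fun u => f u.1) = #(good q F f) * 2 ^ q := by
    have : #(good q (F × Bool) fun u => f u.1) =
        #((good q F f) ×ˢ (univ : Finset (Fin q → Bool))) := by
      apply Finset.card_equiv (Equiv.arrowProdEquivProdArrow (Fin q) (fun _ => F) (fun _ => Bool))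
      intro t
      simp [good, Equiv.arrowProdEquivProdArrow]
    rw [this, Finset.card_product]
    simp
  rw [h2] at h1
  have h3 : 2 ^ q = 2 * 2 ^ (q - 1) := by
    rw [← pow_succ', Nat.sub_add_cancel hq.one_le]
  rw [h3] at h1
  nlinarith

theorem bound_mul.{u} {a b : ℕ} (ha : 1 ≤ a) (hb : 1 ≤ b) (h1 : Bound.{u} a) (h2 : Bound.{u} b) :
    Bound.{u} (a * b) := by
  classical
  intro F _ f
  let F' : Type u := {s : Fin a → F // (a : ℤ) ∣ ∑ i, f (s i)}
  let f' : F' → ℤ := fun s => (∑ i, f (s.1 i)) / a
  have hf' : ∀ s : F', ∑ i, f (s.1 i) = a * f' s := fun s => (Int.mul_ediv_cancel' s.2).symm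
  have hc : Fintype.card F' = #(good a F f) := by
    unfold good
    rw [Fintype.card_subtype]
  have h3 := h2 F' f'
  rw [hc] at h3
  have h4 := h1 F f
  have h5 : #(good b F' f') ≤ #(good (a * b) F f) := by
    apply Finset.card_le_card_of_injOn
      (fun t k => (t (finProdFinEquiv.symm k).2).1 (finProdFinEquiv.symm k).1)
    · intro t ht
      simp only [good, coe_filter, mem_univ, true_and, Set.mem_ofPred_eq] at ht ⊢
      have : ∑ k : Fin (a * b), f ((t (finProdFinEquiv.symm k).2).1 (finProdFinEquiv.symm k).1) =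
          a * ∑ j, f' (t j) := by
        rw [← finProdFinEquiv.sum_comp, Fintype.sum_prod_type_right, Finset.mul_sum]
        apply Finset.sum_congr rfl
        intro j _
        rw [← hf']
        simp
      rw [this]
      push_cast
      exact mul_dvd_mul_left _ ht
    · intro t _ t' _ hh
      funext j
      apply Subtype.ext
      funext i
      have := congrFun hh (finProdFinEquiv (i, j))
      simpa using this
  calc Fintype.card F ^ (a * b) = (Fintype.card F ^ a) ^ b := pow_mul _ _ _
    _ ≤ (2 ^ (a - 1) * #(good a F f)) ^ b := Nat.pow_le_pow_left h4 b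
    _ = 2 ^ ((a - 1) * b) * #(good a F f) ^ b := by rw [mul_pow, ← pow_mul]
    _ ≤ 2 ^ ((a - 1) * b) * (2 ^ (b - 1) * #(good b F' f')) := Nat.mul_le_mul_left _ h3
    _ ≤ 2 ^ ((a - 1) * b) * (2 ^ (b - 1) * #(good (a * b) F f)) :=
        Nat.mul_le_mul_left _ (Nat.mul_le_mul_left _ h5)
    _ = 2 ^ (a * b - 1) * #(good (a * b) F f) := by
        rw [← mul_assoc, ← pow_add]
        congr 2
        obtain ⟨a, rfl⟩ := Nat.exists_eq_add_of_le' ha
        obtain ⟨b, rfl⟩ := Nat.exists_eq_add_of_le' hb
        simp only [Nat.add_sub_cancel]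
        have : (a + 1) * (b + 1) = a * (b + 1) + b + 1 := by ring
        rw [this]; simp [add_assoc]

theorem bound.{u} (n : ℕ) (hn : 1 ≤ n) : Bound.{u} n := by
  induction n using Nat.recOnMul with
  | zero => omega
  | one => intro F _ f; simp [good]
  | prime p hp => exact bound_prime hp
  | mul a b iha ihb =>
    have ha : 1 ≤ a := by
      rcases Nat.eq_zero_or_pos a with rfl | h
      · simp at hn
      · exact h
    have hb : 1 ≤ b := by
      rcases Nat.eq_zero_or_pos b with rfl | h
      · simp at hn
      · exact h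
    exact bound_mul ha hb (iha ha) (ihb hb)

/-- For every `n ≥ 1` and every die with the (nonempty, finite) set of faces `F` and the integer
labels `f`, the probability that `n` divides the sum shown by `n` independent tosses is at least
`1 / 2 ^ (n - 1)`. -/
theorem result.{u} (n : ℕ) (hn : 1 ≤ n) (F : Type u) [Fintype F] [Nonempty F] (f : F → ℤ) :
    (1 : ℝ) / 2 ^ (n - 1) ≤ (#(good n F f) : ℝ) / (Fintype.card F : ℝ) ^ n := by
  have h := bound n hn F f
  have hF : (0 : ℝ) < (Fintype.card F : ℝ) ^ n := by
    have := Fintype.card_pos (α := F)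
    positivity
  rw [div_le_div_iff₀ (by positivity) hF, one_mul]
  calc ((Fintype.card F : ℝ)) ^ n = ((Fintype.card F ^ n : ℕ) : ℝ) := by push_cast; ring
    _ ≤ ((2 ^ (n - 1) * #(good n F f) : ℕ) : ℝ) := by exact_mod_cast h
    _ = _ := by push_cast; ring

end Pool.Agent.Results.MP_652ce8_co.IdenticalDice
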